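import Pool.Agent.Q15.PA.Def

/-!
# Project PA: basic facts about linear forms as polynomials
-/

set_option autoImplicit false

open MvPolynomial

namespace Pool.Agent.Q15.PA

variable {d : ℕ}

theorem eval_lin (a ξ : V d) : eval ξ (lin a) = a ⬝ᵥ ξ := by
  simp [lin, dotProduct]

theorem lin_hom (a : V d) : (lin a).IsHomogeneous 1 := by
  unfold lin
  apply IsHomogeneous.sum
  intro i _
  have := (isHomogeneous_C (Fin d) (a i)).mul (isHomogeneous_X ℝ i)
  simpa using this

theorem coeff_lin (a : V d) (i : Fin d) : coeff (Finsupp.single i 1) (lin a) = a i := by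
  classical
  unfold lin
  rw [coeff_sum, Finset.sum_eq_single i]
  · simp [coeff_C_mul]
  · intro j _ hj
    rw [coeff_C_mul, coeff_X']
    have : ¬ (Finsupp.single j 1 = (Finsupp.single i 1 : Fin d →₀ ℕ)) := by
      intro h
      exact hj ((Finsupp.single_left_inj one_ne_zero).1 h)
    simp [this]
  · simp

theorem lin_inj {a b : V d} (h : lin a = lin b) : a = b := by
  funext i
  rw [← coeff_lin a i, ← coeff_lin b i, h]

theorem lin_smul (c : ℝ) (a : V d) : lin (c • a) = C c * lin a := by
  unfold lin
  rw [Finset.mul_sum]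
  refine Finset.sum_congr rfl fun i _ => ?_
  rw [Pi.smul_apply, smul_eq_mul, C_mul, mul_assoc]

theorem lin_zero : lin (0 : V d) = 0 := by
  simp [lin]

theorem lin_ne {a : V d} (ha : a ≠ 0) : lin a ≠ 0 := fun h => ha (lin_inj (h.trans lin_zero.symm))

theorem totalDegree_lin {a : V d} (ha : a ≠ 0) : (lin a).totalDegree = 1 :=
  (lin_hom a).totalDegree (lin_ne ha)

/-- a factor of a nonzero linear form is a constant or a multiple of the form -/
theorem lin_irred {a : V d} (ha : a ≠ 0) : Irreducible (lin a) := by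
  refine ⟨?_, ?_⟩
  · intro h
    have h1 := (MvPolynomial.isUnit_iff_totalDegree_of_isReduced).1 h
    rw [totalDegree_lin ha] at h1
    omega
  · intro x y hxy
    have hx : x ≠ 0 := by
      rintro rfl; exact lin_ne ha (by rw [hxy, zero_mul])
    have hy : y ≠ 0 := by
      rintro rfl; exact lin_ne ha (by rw [hxy, mul_zero])
    have h := totalDegree_mul_of_isDomain hx hy
    rw [← hxy, totalDegree_lin ha] at h
    rcases Nat.eq_zero_or_pos x.totalDegree with h0 | h0
    · left
      rw [totalDegree_eq_zero_iff_eq_C.1 h0] at hx ⊢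
      exact (isUnit_iff_ne_zero.2 (by rintro h; exact hx (by rw [h, C_0]))).map C
    · right
      have h1 : y.totalDegree = 0 := by omega
      rw [totalDegree_eq_zero_iff_eq_C.1 h1] at hy ⊢
      exact (isUnit_iff_ne_zero.2 (by rintro h; exact hy (by rw [h, C_0]))).map C

theorem lin_prime {a : V d} (ha : a ≠ 0) : Prime (lin a) := (lin_irred ha).prime

/-- `lin a ∣ lin b` only if `b` is a multiple of `a` -/
theorem lin_dvd {a b : V d} (ha : a ≠ 0) (h : lin a ∣ lin b) : ∃ c : ℝ, b = c • a := by
  by_cases hb : b = 0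
  · exact ⟨0, by simp [hb]⟩
  obtain ⟨q, hq⟩ := h
  have hq0 : q ≠ 0 := by
    rintro rfl; exact lin_ne hb (by rw [hq, mul_zero])
  have h1 := totalDegree_mul_of_isDomain (lin_ne ha) hq0
  rw [← hq, totalDegree_lin ha, totalDegree_lin hb] at h1
  have h2 : q.totalDegree = 0 := by omega
  rw [totalDegree_eq_zero_iff_eq_C.1 h2] at hq
  exact ⟨_, lin_inj (by rw [hq, lin_smul, mul_comm])⟩

theorem eval_prod_lin (L : List (V d)) (ξ : V d) : eval ξ (L.map lin).prod = prodL L ξ := by
  unfold prodL
  rw [map_list_prod, List.map_map]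
  congr 1
  apply List.map_congr_left
  intro a _
  simp [eval_lin]

theorem prod_lin_hom (L : List (V d)) : ((L.map lin).prod).IsHomogeneous L.length := by
  induction L with
  | nil => simpa using isHomogeneous_one (Fin d) ℝ
  | cons a L ih =>
    rw [List.map_cons, List.prod_cons, List.length_cons, add_comm]
    exact (lin_hom a).mul ih

theorem prod_lin_ne (L : List (V d)) (h : ∀ a ∈ L, a ≠ 0) : (L.map lin).prod ≠ 0 := by
  apply List.prod_ne_zero
  intro h0
  obtain ⟨a, ha, h1⟩ := List.mem_map.1 h0
  exact lin_ne (h a ha) h1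

end Pool.Agent.Q15.PA
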