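import Mathlib

/-!
# Project PA (row MP_4cf399_an): definitions
-/

set_option autoImplicit false

open MeasureTheory

namespace Pool.Agent.Q15.PA

/-- The space `ℝ^d`. -/
abbrev V (d : ℕ) := Fin d → ℝ

/-! ### The definitions of the problem -/

/-- Every eigenvalue of `M` has absolute value greater than `1`. -/
def Expanding {d : ℕ} (M : Matrix (Fin d) (Fin d) ℝ) : Prop :=
  ∀ (z : ℂ) (w : Fin d → ℂ), w ≠ 0 → (M.map (algebraMap ℝ ℂ)).mulVec w = z • w → 1 < ‖z‖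

/-- `G` is a nonempty compact set, `M` is expanding, `G` is the union of the pieces `M⁻¹ (G + s)`, `s ∈ S`,
and two distinct pieces intersect in a set of measure zero. -/
structure Attr {d : ℕ} (G : Set (V d)) (M : Matrix (Fin d) (Fin d) ℝ) (S : Finset (V d)) : Prop where
  nonempty : G.Nonempty
  compact : IsCompact G
  expanding : Expanding M
  eq : G = ⋃ s ∈ S, (fun x => M⁻¹.mulVec (x + s)) '' G
  null : ∀ s ∈ S, ∀ s' ∈ S, s ≠ s' →
    volume (((fun x => M⁻¹.mulVec (x + s)) '' G) ∩ ((fun x => M⁻¹.mulVec (x + s')) '' G)) = 0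

/-- Attractors. -/
def IsAttractor {d : ℕ} (G : Set (V d)) : Prop :=
  ∃ (M : Matrix (Fin d) (Fin d) ℝ) (S : Finset (V d)), Attr G M S

/-- A `d`-dimensional convex polytope: a bounded intersection of finitely many closed half-spaces with
nonempty interior. -/
def IsPolytope {d : ℕ} (P : Set (V d)) : Prop :=
  Bornology.IsBounded P ∧ (interior P).Nonempty ∧
    ∃ cs : Finset (V d × ℝ), P = {x | ∀ c ∈ cs, c.1 ⬝ᵥ x ≤ c.2}

/-- A polyhedron: compact, the closure of its interior, with connected interior, and a finite union of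
`d`-dimensional convex polytopes. -/
def IsPolyhedron {d : ℕ} (G : Set (V d)) : Prop :=
  IsCompact G ∧ G = closure (interior G) ∧ IsConnected (interior G) ∧
    ∃ F : Finset (Set (V d)), (∀ P ∈ F, IsPolytope P) ∧ G = ⋃ P ∈ F, P

/-- The image of the unit cube under an invertible affine map. -/
def IsParallelepiped {d : ℕ} (G : Set (V d)) : Prop :=
  ∃ (A : Matrix (Fin d) (Fin d) ℝ) (b : V d), IsUnit A.det ∧ G = (fun x => A.mulVec x + b) '' Set.Icc 0 1

/-! ### Analysis -/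

/-- The Laplace transform of `G`: `E G ξ = ∫_G e^{ξ·x} dx`. -/
noncomputable def E {d : ℕ} (G : Set (V d)) (ξ : V d) : ℝ := ∫ x in G, Real.exp (ξ ⬝ᵥ x)

/-- `∑_v p_v(ξ) e^{v·ξ}` with polynomials `p_v`. -/
noncomputable def ev {d : ℕ} (p : V d →₀ MvPolynomial (Fin d) ℝ) (ξ : V d) : ℝ :=
  p.sum fun v q => MvPolynomial.eval ξ q * Real.exp (v ⬝ᵥ ξ)

/-- `∑_v N_v e^{v·ξ}` with constants `N_v`. -/
noncomputable def evc {d : ℕ} (N : V d →₀ ℝ) (ξ : V d) : ℝ :=
  N.sum fun v c => c * Real.exp (v ⬝ᵥ ξ)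

/-- The linear form `ξ ↦ a·ξ` as a polynomial. -/
noncomputable def lin {d : ℕ} (a : V d) : MvPolynomial (Fin d) ℝ :=
  ∑ i, MvPolynomial.C (a i) * MvPolynomial.X i

/-- A product of linear forms. -/
noncomputable def prodL {d : ℕ} (L : List (V d)) (ξ : V d) : ℝ := (L.map (fun a => a ⬝ᵥ ξ)).prod

/-- Rational exponential functions of weight `k` on `ℝ^n`. -/
def Rat (n k : ℕ) (F : V n → ℝ) : Prop :=
  ∃ (L : List (V n)) (j : ℕ) (p : V n →₀ MvPolynomial (Fin n) ℝ), (∀ a ∈ L, a ≠ 0) ∧ L.length = j + k ∧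
    (∀ v, (p v).IsHomogeneous j) ∧ ∀ ξ, prodL L ξ * F ξ = ev p ξ

/-- A linear constraint, strict or not. -/
structure Con (k : ℕ) where
  a : V k
  b : ℝ
  strict : Bool

/-- The constraint holds at `x`. -/
def Con.holds {k : ℕ} (c : Con k) (x : V k) : Prop :=
  if c.strict then c.a ⬝ᵥ x < c.b else c.a ⬝ᵥ x ≤ c.b

/-- The points of the box `[-R, R]^k` which satisfy the constraints. -/
def Cell (k : ℕ) (R : ℝ) (cs : List (Con k)) : Set (V k) :=
  {x | (∀ i, |x i| ≤ R) ∧ ∀ c ∈ cs, c.holds x}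

/-- A finite union of polytopes. -/
def IsUnion {d : ℕ} (G : Set (V d)) : Prop :=
  ∃ F : Finset (Set (V d)), (∀ P ∈ F, IsPolytope P) ∧ G = ⋃ P ∈ F, P

/-! ### Combinatorics -/

/-- `cum N x = ∑_{v ≤ x} N v`. -/
noncomputable def cum {d : ℕ} (N : V d →₀ ℝ) (x : V d) : ℝ := by
  classical exact N.sum fun v c => if v ≤ x then c else 0

/-- The sums `cum N` are `0` or `1`, and `0` for large `x i`. -/
def Good {d : ℕ} (N : V d →₀ ℝ) : Prop :=
  N ≠ 0 ∧ (∀ x, cum N x = 0 ∨ cum N x = 1) ∧ ∃ R : ℝ, ∀ (x : V d) (i : Fin d), R < x i → cum N x = 0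

/-- The equation `T * N = N(X^μ)`, `T = ∑_{s ∈ S} X^s`. -/
def Eqn {d : ℕ} (N : V d →₀ ℝ) (S : Finset (V d)) (μ : V d) : Prop :=
  S.Nonempty ∧ (∀ i, 1 < μ i) ∧ ∀ w, ∑ s ∈ S, N (w - s) = N (fun i => w i / μ i)

/-- `v` is the only maximizer of the linear form `l` on `F`. -/
def UMax {d : ℕ} (F : Finset (V d)) (l v : V d) : Prop := v ∈ F ∧ ∀ v' ∈ F, v' ≠ v → l ⬝ᵥ v' < l ⬝ᵥ v

/-- For all `l` without zero coordinates the maximizer on `F` is unique. -/
def Uni {d : ℕ} (F : Finset (V d)) : Prop := ∀ l : V d, (∀ i, l i ≠ 0) → ∃ v, UMax F l v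

/-- The corner of the box `[lo, hi]` which belongs to the set `T` of indices. -/
noncomputable def crn {d : ℕ} (lo hi : V d) (T : Set (Fin d)) : V d := by
  classical exact fun i => if i ∈ T then hi i else lo i

/-- The box `[lo, hi]` contains `F`, and `F` contains all of its corners. -/
def Corners {d : ℕ} (F : Finset (V d)) (lo hi : V d) : Prop :=
  (∀ v ∈ F, lo ≤ v ∧ v ≤ hi) ∧ ∀ T : Set (Fin d), crn lo hi T ∈ F

/-- `cumZ N a = ∑_{b ≤ a} N_b`, the partial sums of the coefficients of a polynomial. -/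
noncomputable def cumZ {d : ℕ} (N : MvPolynomial (Fin d) ℝ) (a : Fin d →₀ ℕ) : ℝ :=
  ∑ b ∈ Finset.Iic a, N.coeff b

/-- The integral version: `T N = N(X^m)`, `T` has coefficients in `ℕ`, and the partial sums are `0`
or `1`. -/
structure ZData {d : ℕ} (N T : MvPolynomial (Fin d) ℝ) (m : Fin d → ℕ) : Prop where
  two_le : ∀ i, 2 ≤ m i
  nat : ∀ a, ∃ k : ℕ, T.coeff a = k
  eq : T * N = MvPolynomial.aeval (fun i => (MvPolynomial.X i : MvPolynomial (Fin d) ℝ) ^ m i) N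
  one : N.coeff 0 = 1
  zo : ∀ a, cumZ N a = 0 ∨ cumZ N a = 1

/-- Every `x` is in exactly one way `a + b` with `a ∈ A` and `b ∈ B`. -/
def Tiles {M : Type} [Add M] (A B : Set M) : Prop :=
  ∀ x : M, ∃! ab : M × M, ab.1 ∈ A ∧ ab.2 ∈ B ∧ ab.1 + ab.2 = x

/-- Every `n` is in exactly one way `c + b` (`c ∈ C`, `b ∈ B`) or `a + d` (`a ∈ A`, `d ∈ D`), but not
both. -/
def Tiles2 (A B C D : Set ℕ) : Prop :=
  ∀ n : ℕ, ∃! x : ℕ × ℕ × Bool, x.1 + x.2.1 = n ∧
    (if x.2.2 = true then x.1 ∈ C ∧ x.2.1 ∈ B else x.1 ∈ A ∧ x.2.1 ∈ D)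

end Pool.Agent.Q15.PA
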