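import Pool.Agent.Q15.PA.Bas

/-!
# Project PA (row MP_4cf399_an, FULL answer, all dimensions): the lemma jobs

THEOREM.  Every attractor in `ℝ^d` (`G = ⋃_{s ∈ S} M⁻¹(G + s)`, overlaps of measure zero, `M` any expanding real
matrix) which is a polyhedron (not necessarily convex) is a parallelepiped.

PROOF.  `E(ξ) = ∫_G e^{ξ·x} dx` satisfies `T(ξ) E(ξ) = |det M| E(Mᵀ ξ)`, `T(ξ) = ∑_s e^{s·ξ}` (FE).  For a finite union of
polytopes `W(ξ) E(ξ) = ∑_v p_v(ξ) e^{v·ξ}` with a product `W` of linear forms and homogeneous polynomials `p_v` of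
degree `deg W - d` (CL, FUB, RAT, POLY).  By the functional equation all `p_v` are proportional (GAP), so
`E = R · N`, `N = ∑ N_v e^{v·ξ}` with constants `N_v`, and Taylor expansion at `0` and unique factorization give
`(∏_{i=1}^d u_i·ξ) E(ξ) = N(ξ)` with independent vectors `u_i` (TAY, FAC, IND, M1).  `M` permutes the lines `ℝ u_i` (DG),
so a power of `M` is diagonal with entries `μ_i > 1` in this basis (KP), and we may assume `u_i = e_i` (CO, TR).
Then `N` is (up to sign) the mixed difference of the indicator function of `G` (LAP, Z1), and `T N = N(X^μ)`.  From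
here everything is combinatorial: `N` is `±1` at the extreme points of its support (SGN), the extreme points are
the corners of the bounding box (ONE, COR), the `μ_i` are integers (NAT), so by a homomorphism of the group of
exponents to `ℤ^d` we are in the integral case (HOM, ID), in which the set of cells of `G` tiles `ℕ^d` by
translations (TILE), and a finite tile of `ℕ^d` is a product (NIV1, NIV).  As the interior of `G` is connected,
`G` is a box (BX).

RULES.  `theorem t_XXX : Pool.Agent.Q15.PA.S_XXX` in `Pool/Agent/Q<seat>/PA/XXX.lean`; the statements `S_...` which occur as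
premises inside a statement may be used.  Basic facts on `lin` are in `Pool.Agent.Q15.PA.Bas`.
-/

set_option autoImplicit false

open MeasureTheory Filter Topology

namespace Pool.Agent.Q15.PA

/-! ### Expanding matrices, powers, the functional equation -/

/-- JOB EX.  Expanding matrices.
Proof.  Let `A = M.map (algebraMap ℝ ℂ)`; `z` is in the spectrum of `A` iff it is an eigenvalue, so all elements of
the spectrum of `A` have absolute value `> 1`.  `det M = 0` would give the eigenvalue `0`.  The spectrum of `A⁻¹`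
consists of the inverses, so the spectral radius of `A⁻¹` is `< 1` (compactness of the spectrum), so
`‖A⁻¹ ^ n‖ → 0` by Gelfand's formula (Mathlib: `spectrum.pow_nnnorm_pow_one_div_tendsto_nhds_spectralRadius`, with
a Banach algebra norm on the matrices over `ℂ`, e.g. `Matrix.linftyOpNormedAlgebra`), and real vectors follow.
(Or elementary: `A` is triangularizable.)  If `M^k w = z w`, then `∏_i (A - z_i) w = 0`, where
`X^k - z = ∏_i (X - z_i)`, so some `z_i` is an eigenvalue of `A` and `|z| = |z_i|^k > 1`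
(Mathlib: `spectrum.map_pow_of_pos` or `Polynomial.aeval` spectral mapping). -/
def S_EX : Prop := ∀ (d : ℕ) (M : Matrix (Fin d) (Fin d) ℝ), Expanding M →
  IsUnit M.det ∧ (∀ v : V d, Tendsto (fun n : ℕ => (M⁻¹ ^ n).mulVec v) atTop (𝓝 0)) ∧
  ∀ k : ℕ, 1 ≤ k → Expanding (M ^ k)

/-- JOB PW.  Powers.
Proof.  Induction on `k`.  If `G = ⋃_{t ∈ S'} M^{-k}(G + t)`, then
`G = ⋃_{s} M⁻¹(G + s) = ⋃_{s,t} M⁻¹(M^{-k}(G + t) + s) = ⋃_{s,t} M^{-(k+1)}(G + t + M^k s)`.  Let `S''` be the set of all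
`t + M^k s`.  Two different elements `w = t + M^k s`, `w' = t' + M^k s'`: if `s ≠ s'`, the intersection of the pieces is
contained in the null set `M⁻¹(G + s) ∩ M⁻¹(G + s')`; if `s = s'`, then `t ≠ t'` and it is an affine image of a
null set.  `M` is invertible by `S_EX`. -/
def S_PW : Prop := S_EX → ∀ (d : ℕ) (G : Set (V d)) (M : Matrix (Fin d) (Fin d) ℝ) (S : Finset (V d)) (k : ℕ),
  Attr G M S → 1 ≤ k → ∃ S' : Finset (V d), Attr G (M ^ k) S'

/-- JOB FE.  The functional equation.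
Proof.  `∫_G e^{(Mᵀξ)·x} dx = ∑_{s ∈ S} ∫_{M⁻¹(G+s)} e^{ξ·(M x)} dx` (a.e. disjoint union, compact sets), and
`∫_{M⁻¹(G+s)} e^{ξ·(M x)} dx = |det M|⁻¹ ∫_G e^{ξ·(y + s)} dy` by the change of variables `x = M⁻¹(y + s)`
(Mathlib: `integral_image_eq_integral_abs_det_fderiv_smul`, or `Real.map_matrix_volume_pi_eq_smul_volume_pi`
and translation invariance; `integral_iUnion_ae` / `integral_finset_biUnion` for the a.e. disjoint union). -/
def S_FE : Prop := ∀ (d : ℕ) (G : Set (V d)) (M : Matrix (Fin d) (Fin d) ℝ) (S : Finset (V d)),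
  IsUnit M.det → Attr G M S → ∀ ξ : V d,
    (∑ s ∈ S, Real.exp (s ⬝ᵥ ξ)) * E G ξ = |M.det| * E G (M.transpose.mulVec ξ)

/-! ### The transform of a finite union of polytopes -/

/-- JOB CL.  Closure properties of `Rat`.
Proof.  (1) `L = []`, `j = 0`, `p = single 0 1`.  (2) `L` a list of `k` nonzero vectors (`k = 0` or `n > 0`), `p = 0`.
(3) `L = L₁ ++ L₂`, `j = j₁ + j₂ + k`, `p_v = (∏ L₂) p₁_v + (∏ L₁) p₂_v` (`Bas.eval_prod_lin`, `prod_lin_hom`).
(4) the same `L`, `j`; `p` is multiplied by `c` and shifted by `w`.  (5) `L' = a :: L`, the same `j` and `p`. -/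
def S_CL : Prop := ∀ (n k : ℕ),
  Rat n 0 (fun _ => 1) ∧
  (k ≤ n → Rat n k (fun _ => 0)) ∧
  (∀ F F' : V n → ℝ, Rat n k F → Rat n k F' → Rat n k (fun ξ => F ξ + F' ξ)) ∧
  (∀ (F : V n → ℝ) (c : ℝ) (w : V n), Rat n k F → Rat n k (fun ξ => c * Real.exp (w ⬝ᵥ ξ) * F ξ)) ∧
  ∀ (F : V n → ℝ) (a : V n), a ≠ 0 → Rat n k (fun ξ => (a ⬝ᵥ ξ) * F ξ) → Rat n (k + 1) F

/-- JOB FUB.  Integration over one coordinate.
Proof.  `V (k+1) ≃ ℝ × V k` (`MeasurableEquiv.piFinSuccAbove`, `volume_preserving_piFinSuccAbove`, `i = 0`), Fubini.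
For fixed `y` the constraint `c` becomes `α t ≤ b - a'·y` (or `<`), `α = c.a 0`: for `α = 0` a constraint for `y`
(flat), for `α > 0` an upper bound, for `α < 0` a lower bound of `t` by an affine function of `y`; further the
lower bound `-R` and the upper bound `R`.  So up to two points the slice is the interval from the largest lower
bound `f_i(y)` to the smallest upper bound `g_j(y)` (empty if `f_i(y) > g_j(y)`), and `η ∫ e^{ηt} dt = e^{η g_j} - e^{η f_i}`.
Choose `i` (and `j`) smallest among the equal ones: for all pairs `(i, j)` one cell in `V k` with the flat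
constraints, `f_{i'} < f_i` for `i' < i`, `f_{i'} ≤ f_i` for `i' > i`, `g_j < g_{j'}` for `j' < j`, `g_j ≤ g_{j'}` for
`j' > j` and `f_i ≤ g_j`; these cells are disjoint, and their union consists of the `y` for which the flat
constraints hold and the slice is not empty (up to its end points).  The components of an element of `Q` are
the constraints, the affine function `g_j` and the affine function `f_i` (linear part, constant). -/
def S_FUB : Prop := ∀ (k : ℕ) (R : ℝ) (cs : List (Con (k + 1))),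
  ∃ Q : List (List (Con k) × (V k × ℝ) × (V k × ℝ)), ∀ (l : V k) (η : ℝ),
    η * ∫ x in Cell (k + 1) R cs, Real.exp ((Fin.cons η l : V (k + 1)) ⬝ᵥ x) =
    (Q.map fun q => ∫ y in Cell k R q.1, Real.exp (l ⬝ᵥ y) *
      (Real.exp (η * (q.2.1.1 ⬝ᵥ y + q.2.1.2)) - Real.exp (η * (q.2.2.1 ⬝ᵥ y + q.2.2.2)))).sum

/-- JOB RAT.  Induction on the dimension.
Proof.  Induction on `k`.  `k = 0`: the integral is `0` or `1` (`V 0` is a point).  `k + 1`: `Λ ξ = Fin.cons (η ξ) (l ξ)`,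
`η ξ = a·ξ` with `a ≠ 0` (`Λ` is surjective).  By `S_CL` (5) it is enough that `η ξ * ∫` is in `Rat n k`.  By `S_FUB` it is
a sum of integrals `∫_{Cell k R cs'} e^{l·y} e^{η (g·y + g₀)} dy = e^{g₀ η ξ} ∫_{Cell k R cs'} e^{(l + η g)·y} dy` (with signs), and
`ξ ↦ l ξ + η ξ • g` is surjective (take `ξ` with `Λ ξ = Fin.cons 0 y`).  Use (3), (4) and (2) (`k + 1 ≤ n` by
surjectivity). -/
def S_RAT : Prop := S_CL → S_FUB → ∀ (n k : ℕ) (R : ℝ) (cs : List (Con k)) (Λ : V n →ₗ[ℝ] V k),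
  Function.Surjective Λ → Rat n k (fun ξ => ∫ x in Cell k R cs, Real.exp (Λ ξ ⬝ᵥ x))

/-- JOB POLY.  Finite unions of polytopes.
Proof.  Inclusion-exclusion (Mathlib: `integral_biUnion_eq_sum_powerset`); the intersection of a nonempty finite
set of polytopes is bounded and given by finitely many constraints, so it is `Cell d R cs` with `R` large;
`S_RAT` with `Λ = id`, and `S_CL`. -/
def S_POLY : Prop := S_CL → S_RAT → S_FUB → ∀ (d : ℕ) (G : Set (V d)), IsUnion G → Rat d d (E G)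

/-! ### The algebra of the functional equation -/

/-- JOB LI.  Exponential functions are linearly independent over the polynomials.
Proof.  One variable: if `∑_j P_j(t) e^{a_j t} = 0` for all `t` with different `a_j` and not all `P_j = 0`, let `a` be the largest
`a_j` with `P_j ≠ 0`, divide by `e^{a t}` and let `t → ∞`: `P_j(t) → 0`, so `P_j = 0`.  In general let `v₀` be in the support of
`p`; let `η` with `∏_{v ≠ v'} (v - v')·η ≠ 0` (`v`, `v'` in the support); then with `ξ = t η` (`p_v(t η)` is a polynomial in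
`t`) `p_{v₀}(η) = 0`.  So `p_{v₀} · ∏_{v ≠ v'} lin (v - v')` vanishes everywhere, it is `0` (`MvPolynomial.funext`), and
`p_{v₀} = 0`. -/
def S_LI : Prop := ∀ (d : ℕ) (p : V d →₀ MvPolynomial (Fin d) ℝ), (∀ ξ, ev p ξ = 0) → p = 0

/-- JOB GAP.  All coefficients are proportional.
Proof.  Let `q_w = ∑_{s ∈ S} p(w - s)`, `r_w = p(M⁻¹ w)`, so `A q_w = B r_w`; hence `q_w = 0` iff `r_w = 0`, and
`q_w ∈ ℝ q_{w₀}` iff `r_w ∈ ℝ r_{w₀}`.  Suppose that not all `p_v` are in one line.  Choose a linear form `l` such that for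
all `n ≥ 0` and `s ≠ s'` in `S`: `l·(M^n (s - s')) ≠ 0` (countably many proper subspaces do not cover `ℝ^d`, e.g. since
they are null sets: `Measure.addHaar_submodule`).  For a linear form `l` call `(v₀, v₁)` a gap pair if `p_{v₀} ≠ 0`,
`l·v₀ ≤ l·v` for all `v` in the support of `p`, `p_{v₁} ∉ ℝ p_{v₀}`, and `p_v ∈ ℝ p_{v₀}` for all `v` with `l·v < l·v₁`.  It exists for
every `l` (finiteness).  CLAIM: let `s₀` be the unique minimizer of `l` on `S`; if `(v₀, v₁)` is a gap pair for `l`, then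
`(M⁻¹(v₀ + s₀), M⁻¹(v₁ + s₀))` is a gap pair for `Mᵀ l`.  Indeed with `w₀ = v₀ + s₀`, `w₁ = v₁ + s₀`: `q_{w₀} = p_{v₀}` (for `s ≠ s₀`
we have `l·(w₀ - s) < l·v₀`), `q_w = 0` for `l·w < l·w₀`, `q_w ∈ ℝ p_{v₀}` for `l·w < l·w₁` (`l·(w - s) ≤ l·(w - s₀) < l·v₁`), and
`q_{w₁} ∈ p_{v₁} + ℝ p_{v₀}` is not in `ℝ p_{v₀}`; now use `A q = B r` and `(Mᵀ l)·(M⁻¹ w) = l·w`.  Iterating: `M^{-n}(v₁ - v₀)` is for all
`n` the difference of two elements of the support of `p` (finite), it is not zero, and it tends to `0` by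
`S_EX`: a contradiction. -/
def S_GAP : Prop := S_EX → ∀ (d : ℕ) (M : Matrix (Fin d) (Fin d) ℝ) (S : Finset (V d))
  (p : V d →₀ MvPolynomial (Fin d) ℝ) (A B : MvPolynomial (Fin d) ℝ →ₗ[ℝ] MvPolynomial (Fin d) ℝ),
  Expanding M → S.Nonempty → Function.Injective A → Function.Injective B →
  (∀ w, A (∑ s ∈ S, p (w - s)) = B (p (M⁻¹.mulVec w))) →
  ∃ (q : MvPolynomial (Fin d) ℝ) (N : V d →₀ ℝ), ∀ v, p v = N v • q

/-- JOB TAY.  Taylor expansion at `0`.
Proof.  `m = ∑_v N_v (lin v)^d / d!`.  Let `q(ξ) ≠ 0`, `W = prodL L`.  For real `t`: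
`t^{j+d} W(ξ) E(tξ) = t^j q(ξ) f(t)`, `f(t) = ∑_v N_v e^{t v·ξ}`, so `f(t) = t^d h(t)` for `t ≠ 0`, where
`h(t) = W(ξ) E(tξ) / q(ξ)` is continuous with `h(0) = W(ξ) vol(G) / q(ξ)`.  As `f(t) = ∑_k m_k(ξ) t^k`,
`m_k(ξ) = ∑_v N_v (v·ξ)^k / k!`, we get `m_k(ξ) = 0` for `k < d` and `m_d(ξ) = h(0)` (expansion up to order `d` with error
`O(t^{d+1})`).  So `q m = vol(G) W` where `q ≠ 0`, so the polynomial `q (q m - vol W)` is `0`, and `q ≠ 0` (since
`W(ξ) E(ξ) = q(ξ) evc N ξ` and `E > 0`, `W ≠ 0`).  Finally `q (m E - vol evc N) = 0` pointwise, and the set `q ≠ 0` is dense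
(on a line through a point with `q ≠ 0` there are finitely many zeros), and `E G` and `evc N` are continuous. -/
def S_TAY : Prop := ∀ (d : ℕ) (G : Set (V d)) (L : List (V d)) (j : ℕ) (q : MvPolynomial (Fin d) ℝ)
  (N : V d →₀ ℝ), IsCompact G → volume G ≠ 0 → (∀ a ∈ L, a ≠ 0) → L.length = j + d → q.IsHomogeneous j →
  (∀ ξ, prodL L ξ * E G ξ = MvPolynomial.eval ξ q * evc N ξ) →
  ∃ m : MvPolynomial (Fin d) ℝ, m.IsHomogeneous d ∧
    q * m = MvPolynomial.C (volume G).toReal * (L.map lin).prod ∧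
    ∀ ξ, MvPolynomial.eval ξ m * E G ξ = (volume G).toReal * evc N ξ

/-- JOB FAC.  A divisor of a product of linear forms is a product of linear forms.
Proof.  `Bas.lin_prime`, Mathlib: `mul_eq_mul_prime_prod` (index set: the positions of the list `L`), the factor
dividing the constant `c` is a constant (unit), and the number of the linear forms is the degree `n` of `m`
(`IsHomogeneous.totalDegree`, `m ≠ 0`). -/
def S_FAC : Prop := ∀ (d n : ℕ) (L : List (V d)) (q m : MvPolynomial (Fin d) ℝ) (c : ℝ), c ≠ 0 →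
  (∀ a ∈ L, a ≠ 0) → m.IsHomogeneous n → q * m = MvPolynomial.C c * (L.map lin).prod →
  ∃ (u : Fin n → V d) (b : ℝ), b ≠ 0 ∧ (∀ i, u i ≠ 0) ∧ m = MvPolynomial.C b * ∏ i, lin (u i)

/-- JOB IND.  The linear forms are independent.
Proof.  If not, there is `ξ₀ ≠ 0` with `u_i·ξ₀ = 0` for all `i`.  Let `ξ` with `c = ∏ u_i·ξ ≠ 0` (`Bas`: `∏ lin (u i) ≠ 0`).
Then `c E(ξ + s ξ₀) = ∑_v N_v e^{v·ξ} e^{s v·ξ₀} = ∑_k c_k e^{s λ_k}` for all real `s` (different `λ_k`, `c_k ≠ 0`; not the empty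
sum, as `E > 0`).  Let `λ` be the largest `λ_k`; `e^{-sλ} c E(ξ + sξ₀) → c_max ≠ 0` for `s → ∞`.  If `x·ξ₀ > λ + ε` on a part of
`G` of positive measure (for some `ε > 0`), then `e^{-sλ} E(ξ + s ξ₀) → ∞`, a contradiction; so `x·ξ₀ ≤ λ` almost
everywhere on `G`, and since the hyperplane `x·ξ₀ = λ` is a null set, `e^{-sλ} E(ξ + s ξ₀) = ∫_G e^{ξ·x} e^{s (x·ξ₀ - λ)} dx → 0`
by dominated convergence, a contradiction. -/
def S_IND : Prop := ∀ (d : ℕ) (G : Set (V d)) (u : Fin d → V d) (N : V d →₀ ℝ), IsCompact G →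
  volume G ≠ 0 → (∀ i, u i ≠ 0) → (∀ ξ, (∏ i, u i ⬝ᵥ ξ) * E G ξ = evc N ξ) → LinearIndependent ℝ u

/-- JOB M1.  The vertex polynomial.
Proof.  `S_POLY`: `prodL L ξ * E G ξ = ev p ξ`.  Multiply `S_FE` by `prodL L ξ * prodL L (Mᵀ ξ)`, where
`prodL L (Mᵀ ξ) = prodL (L.map M.mulVec) ξ`: with `T(ξ) = ∑_s e^{s·ξ}`
`prodL L (Mᵀ ξ) T(ξ) ev p ξ = |det M| prodL L ξ ev p (Mᵀ ξ)`.  Here `T(ξ) ev p ξ = ∑_w (∑_s p(w - s))(ξ) e^{w·ξ}` and
`ev p (Mᵀ ξ) = ∑_w τ(p(M⁻¹ w))(ξ) e^{w·ξ}`, `τ` the substitution `ξ ↦ Mᵀ ξ` of polynomials (`MvPolynomial.aeval`), an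
injective linear map.  By `S_LI` the coefficients of all `e^{w·ξ}` agree: `A (∑_s p(w - s)) = B (p(M⁻¹ w))`, where `A` is the
multiplication by `∏ lin (M a)` and `B q = |det M| ∏ lin a · τ q`, both injective.  `S_GAP`: `p v = N v • q`; not all are
`0` (`E > 0`), so `q` is homogeneous of degree `j`.  `S_TAY`, `S_FAC` (`n = d`, `c = vol > 0`): `b ∏ u_i·ξ E = vol · evc N`, replace `N`
by `(vol / b) N`.  `S_IND`. -/
def S_M1 : Prop := S_EX → S_FE → S_CL → S_RAT → S_FUB → S_POLY → S_LI → S_GAP → S_TAY → S_FAC → S_IND →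
  ∀ (d : ℕ) (G : Set (V d)) (M : Matrix (Fin d) (Fin d) ℝ) (S : Finset (V d)), Attr G M S → IsUnion G →
  volume G ≠ 0 → ∃ (u : Fin d → V d) (N : V d →₀ ℝ), LinearIndependent ℝ u ∧
    ∀ ξ, (∏ i, u i ⬝ᵥ ξ) * E G ξ = evc N ξ

/-- JOB DG.  `M` permutes the lines `ℝ u_i`.
Proof.  `N ≠ 0` since `E > 0`.  With `u·(Mᵀ ξ) = (M u)·ξ`, `S_FE` multiplied by `(∏ (M u_i)·ξ) (∏ u_i·ξ)` gives
`(∏ (M u_i)·ξ) T(ξ) evc N ξ = |det M| (∏ u_i·ξ) evc N (Mᵀ ξ)`.  By `S_LI` the coefficients of `e^{w·ξ}` agree: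
`(∏ lin (M u_i)) (∑_s N(w - s)) = |det M| (∏ lin u_i) N(M⁻¹ w)`; take `w = M v` with `N v ≠ 0`, so
`(∏ lin (M u_i)) a = b ∏ lin u_i` with constants `a`, `b ≠ 0`.  For every `i` the prime `lin (M u_i)` divides some `lin u_j`, so
`M u_i ∈ ℝ u_j` (`Bas.lin_prime`, `lin_dvd`; `M u_i ≠ 0`).  The map `i ↦ j` is injective since `M` is invertible and the
`u_i` are independent. -/
def S_DG : Prop := S_EX → S_FE → S_LI → ∀ (d : ℕ) (G : Set (V d)) (M : Matrix (Fin d) (Fin d) ℝ)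
  (S : Finset (V d)) (u : Fin d → V d) (N : V d →₀ ℝ), Attr G M S → volume G ≠ 0 → LinearIndependent ℝ u →
  (∀ ξ, (∏ i, u i ⬝ᵥ ξ) * E G ξ = evc N ξ) →
  ∃ (σ : Equiv.Perm (Fin d)) (c : V d), ∀ i, M.mulVec (u i) = c i • u (σ i)

/-- JOB KP.  A power is diagonal with entries `> 1`.
Proof.  Let `r` be the order of `σ`.  `M^r u_i = C_i u_i` with a real `C_i` (induction: `M^n u_i ∈ ℝ u_{σ^n i}`), and with `k = 2r`
`M^k u_i = C_i² u_i`.  `C_i² > 1`, since it is an eigenvalue of `M^k` (`S_EX`: `M^k` is expanding). -/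
def S_KP : Prop := S_EX → ∀ (d : ℕ) (M : Matrix (Fin d) (Fin d) ℝ) (u : Fin d → V d)
  (σ : Equiv.Perm (Fin d)) (c : V d), Expanding M → LinearIndependent ℝ u →
  (∀ i, M.mulVec (u i) = c i • u (σ i)) →
  ∃ (k : ℕ) (μ : V d), 1 ≤ k ∧ (∀ i, 1 < μ i) ∧ ∀ i, (M ^ k).mulVec (u i) = μ i • u i

/-- JOB CO.  Change of coordinates.
Proof.  `U` has the columns `u_i`, it is invertible; `G' = U⁻¹ G`, `S' = U⁻¹ S` (nonempty since `G` is).
`E G ξ = |det U| E G' (Uᵀ ξ)`, `(Uᵀ ξ)_i = u_i·ξ`, and with `η = Uᵀ ξ`: `v·ξ = (U⁻¹ v)·η`, so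
`(∏ η_i) E G' η = |det U|⁻¹ ∑_v N_v e^{(U⁻¹ v)·η}`; this is `evc N' η`, `N'(v) = |det U|⁻¹ N(U v)`.  For the last statement
(`M = U diag(μ) U⁻¹`, `det M = ∏ μ_i > 0`): `S_FE` multiplied by `∏ (u_i·ξ) · ∏ (u_i·Mᵀξ) = ∏ μ_i ∏ (u_i·ξ)²` gives for all
`ξ`: `(∏ μ_i) (∏ u_i·ξ) T(ξ) evc N ξ = (∏ μ_i) (∏ u_i·ξ) evc N (Mᵀ ξ)`, and by `S_LI` (or continuity)
`∑_s N(w - s) = N(M⁻¹ w)` for all `w`; put `w = U w'`. -/
def S_CO : Prop := S_EX → S_FE → S_LI → ∀ (d : ℕ) (G : Set (V d)) (M : Matrix (Fin d) (Fin d) ℝ)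
  (S : Finset (V d)) (u : Fin d → V d) (N : V d →₀ ℝ) (μ : V d), Attr G M S → volume G ≠ 0 →
  LinearIndependent ℝ u → (∀ ξ, (∏ i, u i ⬝ᵥ ξ) * E G ξ = evc N ξ) → (∀ i, 1 < μ i) →
  (∀ i, M.mulVec (u i) = μ i • u i) →
  ∃ (U : Matrix (Fin d) (Fin d) ℝ) (G' : Set (V d)) (N' : V d →₀ ℝ) (S' : Finset (V d)), IsUnit U.det ∧
    G = (fun x => U.mulVec x) '' G' ∧ S'.Nonempty ∧ (∀ ξ, (∏ i, ξ i) * E G' ξ = evc N' ξ) ∧
    ∀ w, ∑ s ∈ S', N' (w - s) = N' (fun i => w i / μ i)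

/-- JOB TR.  Transport by a linear isomorphism (a homeomorphism which preserves null sets).  For the last item:
`Set.Icc a b` is the image of `Set.Icc 0 1` under `x ↦ D x + a`, `D` diagonal with entries `b_i - a_i > 0`. -/
def S_TR : Prop := ∀ (d : ℕ) (U : Matrix (Fin d) (Fin d) ℝ) (G G' : Set (V d)), IsUnit U.det →
  G = (fun x => U.mulVec x) '' G' →
  (IsCompact G → IsCompact G') ∧ (G = closure (interior G) → G' = closure (interior G')) ∧
  (IsConnected (interior G) → IsConnected (interior G')) ∧ (volume G ≠ 0 → volume G' ≠ 0) ∧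
  ∀ a b : V d, (∀ i, a i < b i) → G' = Set.Icc a b → IsParallelepiped G

/-! ### Inversion -/

/-- JOB LAP.  Uniqueness of the transform.
Proof.  Let `R` be larger than the absolute values of all coordinates of points of `G` and of the support of `N`, and
`g(x) = (-1)^d ∑_v N_v 1[v ≤ x < R]` (coordinatewise), bounded with compact support.
`(∏ ξ_i) ∫ g(x) e^{ξ·x} dx = (-1)^d ∑_v N_v ∏_i (e^{R ξ_i} - e^{v_i ξ_i}) = ∑_v N_v ∏_i (e^{v_i ξ_i} - e^{R ξ_i})`; expand the product over the sets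
`J` of the `i` for which the second term is taken: for `J ≠ ∅` the sum `∑_v N_v ∏_{i ∉ J} e^{v_i ξ_i}` is `evc N ξ'` with `ξ'_i = 0` for
`i ∈ J`, so it is `(∏ ξ'_i) E G ξ' = 0`; `J = ∅` gives `evc N ξ`.  Hence `(∏ ξ_i) ∫ (1_G - g) e^{ξ·x} dx = 0` for all `ξ`, and by continuity
`∫ (1_G - g) e^{ξ·x} dx = 0` for all `ξ`.  Let `μ₁ = (1_G + g⁻) dx`, `μ₂ = g⁺ dx`: finite measures with compact support; for
every linear form `a` the functions `mgf (a·x)` for `μ₁` and `μ₂` agree, so the `complexMGF` agree (Mathlib: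
`eqOn_complexMGF_of_mgf'`), so the characteristic functions (`Measure.ext_of_charFunDual` or
`Measure.ext_of_charFun`) and `μ₁ = μ₂`, so `1_G = g` a.e. (`withDensity` injectivity).  This holds for all large
`R`, so `1_G(x) = (-1)^d cum N x` for almost all `x` (take `R → ∞` through the integers). -/
def S_LAP : Prop := ∀ (d : ℕ) (G : Set (V d)) (N : V d →₀ ℝ), IsCompact G →
  (∀ ξ, (∏ i, ξ i) * E G ξ = evc N ξ) →
  ∀ᵐ x, G.indicator (fun _ => (1 : ℝ)) x = (-1) ^ d * cum N x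

/-- JOB Z1.  Pointwise form.
Proof.  For every `x` there is `ε > 0` such that `cum N` is constant on the box `x ≤ y < x + ε` (no coordinate of a
point of the support lies in `(x_i, x_i + ε)`), which has positive measure.  So `(-1)^d cum N x` is `0` or `1`; it is
`0` if some `x_i > R` with `G ⊂ [-R, R]^d`, and it is `1` if `x` is in the interior of `G`.  `N ≠ 0` since `vol G ≠ 0`.
`cum` is linear in `N`. -/
def S_Z1 : Prop := ∀ (d : ℕ) (G : Set (V d)) (N : V d →₀ ℝ), IsCompact G → volume G ≠ 0 →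
  (∀ᵐ x, G.indicator (fun _ => (1 : ℝ)) x = (-1) ^ d * cum N x) →
  Good ((-1 : ℝ) ^ d • N) ∧ (∀ x ∈ interior G, cum ((-1 : ℝ) ^ d • N) x = 1) ∧
  ∀ᵐ x, (cum ((-1 : ℝ) ^ d • N) x = 1 ↔ x ∈ G)

/-! ### Combinatorics -/

/-- JOB SGN.  The values at the extreme points.
Proof.  For a set `σ` of indices let `h(σ, x) = ∑ N_v` over the `v` in the support with `v_i ≤ x_i` for `i ∉ σ` and `v_i > x_i` for
`i ∈ σ`.  CLAIM: `h(σ, x) = (-1)^|σ| cum N x`.  Induction on `σ`: for `i ∉ σ`, `h(σ, x) + h(σ ∪ {i}, x)` is the sum without a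
condition on `v_i`, that is `h(σ, x')`, where `x'` is `x` with `x_i` replaced by a number larger than `R` and all
coordinates of the support, so it is `(-1)^|σ| cum N x' = 0`.  Now let `v` be a maximizer of `l` on the support,
`σ = {i : l_i > 0}`, `x_i = v_i - ε` for `i ∈ σ`, `x_i = v_i` for `i ∉ σ`, with `ε` so small that for `v'` in the support
`v'_i > v_i - ε` iff `v'_i ≥ v_i`.  The `v'` which occur in `h(σ, x)` satisfy `l_i v'_i ≥ l_i v_i` for all `i`, so `v' = v` by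
maximality.  So `N v = h(σ, x) = (-1)^|σ| cum N x`, which is `0` or `(-1)^|σ|`, and `N v ≠ 0`. -/
def S_SGN : Prop := ∀ (d : ℕ) (N : V d →₀ ℝ), Good N → ∀ l : V d, (∀ i, l i ≠ 0) → ∀ v ∈ N.support,
  (∀ v' ∈ N.support, l ⬝ᵥ v' ≤ l ⬝ᵥ v) → N v = (-1) ^ (Finset.univ.filter (fun i => 0 < l i)).card

/-- JOB ONE.  The maximizers are unique.
Proof.  Let `F_l` be the set of the maximizers of `l` on the support of `N` (not empty), `S_l` that on `S`, and
`μl = (μ_i l_i)`.  (a) `|S_l| |F_l| = |F_{μl}|`.  Let `c` be the sum of the two maxima, and sum the equation over the `w`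
with `l·w = c`: if `N(w - s) ≠ 0` then `s ∈ S_l` and `w - s ∈ F_l`, so by `S_SGN` the left side is `|S_l| |F_l| ε`,
`ε = (-1)^{#{l_i > 0}}`.  The right side is `∑ N_v` over the `v` with `(μl)·v = c` (`v = w/μ`); for `v` in the support
`N(w/μ) ≠ 0` with `w = μv`, so some `N(w - s) ≠ 0` and `(μl)·v = l·w ≤ c`; so these `v` are the maximizers of `μl`, and the
right side is `|F_{μl}| ε` (the same signs).  (b) If `S_l = {s}`, then `μ v ∈ F_l + s` for all `v ∈ F_{μl}`, so by (a)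
`v ↦ μv - s` is a bijection from `F_{μl}` to `F_l`.  (c) Let `l_n = μ^n l`.  The numbers `|F_{l_n}|` are nondecreasing and at most
the size of the support, so constant for `n ≥ n₀`, and then `|S_{l_n}| = 1` by (a).  If `v ≠ v'` are in `F_{l_{n₀}}`, then by (b)
`μ^{-m} (v - v')` is a difference of two points of the support for all `m ≥ 0`, not zero, and tends to `0`, a
contradiction to finiteness.  So `|F_l| ≤ |F_{l_{n₀}}| = 1`.  As this holds for all `l`, (a) gives `|S_l| = 1`. -/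
def S_ONE : Prop := S_SGN → ∀ (d : ℕ) (N : V d →₀ ℝ) (S : Finset (V d)) (μ : V d), Good N → Eqn N S μ →
  Uni N.support ∧ Uni S

/-- JOB COR.  The corners of the bounding box.
Proof.  Fix a set `T` of indices; the `l` with `l_i > 0` for `i ∈ T`, `l_i < 0` for `i ∉ T` form a nonempty convex open set
`O`.  For `v ∈ F` the set of the `l ∈ O` with unique maximizer `v` is open in `O`, these sets are disjoint and cover `O`, so
one `v = v_T` is the maximizer for all `l ∈ O` (`O` is preconnected).  With `l_i = ±1` and `l_j = ± ε` for `j ≠ i`, `ε → 0`: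
`± v_i` is maximal for `v = v_T` (`+` for `i ∈ T`), for every `i`.  So the `i`-th coordinate of `v_T` is the maximum `hi i` of
the `i`-th coordinates of the points of `F` for `i ∈ T`, and the minimum `lo i` for `i ∉ T`: `v_T = crn lo hi T`. -/
def S_COR : Prop := ∀ (d : ℕ) (F : Finset (V d)), Uni F → ∃ lo hi : V d, Corners F lo hi

/-- JOB NAT.  The numbers `μ_i` are integers.
Proof.  (2) Put `w = hi' + hi`: if `N(w - s) ≠ 0`, `s ∈ S`, then `w - s ≤ hi`, so `s = hi'`; so `N(w/μ) = N(hi) ≠ 0`, and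
`hi'_i + hi_i ≤ μ_i hi_i`.  Put `w = μ hi`: some `N(w - s) ≠ 0`, `s ∈ S`, so `μ_i hi_i - hi'_i ≤ μ_i hi_i - s_i ≤ hi_i`.  So
`hi' = (μ - 1) hi`, and in the same way `lo' = (μ - 1) lo`.  (1) Let `a(t) = N(lo with the i-th coordinate t)`.  For `x_j = lo_j`
(`j ≠ i`) and `x_i = t`: `cum N x = ∑_{t' ≤ t} a(t')`.  So `∑_t a(t) = 0` (take `t` large), and `lo_i < hi_i` since
`a(lo_i) ≠ 0`.  (3) For `w` with `w_j = μ_j lo_j` (`j ≠ i`), `w_i = u`: `N(w - s) ≠ 0` implies `s_j ≤ lo'_j`, so `s_j = lo'_j` for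
`j ≠ i`; let `τ` be the set of these `s ∈ S`.  The equation is `∑_{s ∈ τ} a(u - s_i) = a(u/μ_i)` for all `u`; multiply by
`u` and sum over `u`: `∑_{s ∈ τ} ∑_t (t + s_i) a(t) = μ_i ∑_t t a(t)`, so `|τ| A = μ_i A`, `A = ∑_t t a(t)`.  `A ≠ 0`: for `R'` large
`-A = ∑_t a(t) (R' - t) = ∫_{lo_i}^{R'} h(t) dt`, `h(t) = ∑_{t' ≤ t} a(t')`, which is a value of `cum N`, so `≥ 0`, and it is
`a(lo_i) ≠ 0`, so `1`, for `t` near `lo_i`.  (Or Abel summation.)  So `μ_i = |τ|`. -/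
def S_NAT : Prop := ∀ (d : ℕ) (N : V d →₀ ℝ) (S : Finset (V d)) (μ lo hi lo' hi' : V d), Good N →
  Eqn N S μ → Corners N.support lo hi → Corners S lo' hi' →
  (∀ i, lo i < hi i) ∧ (∀ i, lo' i = (μ i - 1) * lo i ∧ hi' i = (μ i - 1) * hi i) ∧
  ∀ i, ∃ m : ℕ, 2 ≤ m ∧ μ i = m

/-- JOB HOM.  A homomorphism to the rational numbers, integral and strictly increasing on a finite set.
Proof.  Let `W ⊂ ℝ` be the `ℚ`-span of `F`, of finite dimension, with basis `b_1, …, b_r`.  The elements of `F` are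
`∑ c_k(x) b_k` with rational `c_k(x)`.  The conditions `∑ (c_k(y) - c_k(x)) β_k > 0` for `x < y` in `F` define an open set of
`β ∈ ℝ^r` which contains `b`, so it contains a rational point `β` (density).  Let `ψ(b_k) = β_k`, multiply by a common
denominator of the `ψ(x)`, `x ∈ F`, and extend to `ℝ` (`LinearMap.exists_extend`). -/
def S_HOM : Prop := ∀ F : Finset ℝ, ∃ ψ : ℝ →ₗ[ℚ] ℚ, (∀ x ∈ F, ∃ n : ℤ, ψ x = n) ∧
  ∀ x ∈ F, ∀ y ∈ F, x < y → ψ x < ψ y

/-- JOB ID.  Reduction to the integral case.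
Proof.  For every `i` let `F_i` be the set of the `i`-th coordinates of the points of the support of `N` and of `S`, and
`ψ_i` as in `S_HOM`.  By `S_NAT` `μ_i = m_i ∈ ℕ`, `lo'_i = (m_i - 1) lo_i`.  For `v` in the support let
`e(v)_i = ψ_i(v_i - lo_i) ∈ ℕ`, for `s ∈ S` let `f(s)_i = ψ_i(s_i - lo'_i) ∈ ℕ` (`lo'_i ∈ F_i` is the `i`-th coordinate of a corner
of `S`).  `N' = ∑_v N_v X^{e(v)}`, `T' = ∑_{s ∈ S} X^{f(s)}`.  `e` is injective and `v ≤ v'` iff `e(v) ≤ e(v')`, since `ψ_i` is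
strictly increasing on `F_i`.
(eq) Let `Φ(w)_i = ψ_i(w_i - m_i lo_i)`, additive up to the constants: `Φ(s + v) = f(s) + e(v)`, `Φ(μ v) = m e(v)`.  The
coefficient at `a` of `T' N'` is `∑ N_v` over the `(s, v)` with `Φ(s + v) = a`, that is
`∑_{Φ(w) = a} ∑_s N(w - s) = ∑_{Φ(w) = a} N(w/μ)`, the coefficient at `a` of `N'(X^m)`.  (one): `e(v) = 0` iff `v = lo`, and
`N(lo) = cum N lo ≠ 0`, so it is `1`.  (κ) For `t ≥ lo_i` let `κ_i(t) = ψ_i(c - lo_i)` with the largest `i`-th coordinate `c ≤ t` of a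
point of the support: `v ≤ x` iff `e(v) ≤ κ(x)`.  (zo) for `a ∈ ℕ^d` let `x_i` be the largest `i`-th coordinate `c` of a point
of the support with `ψ_i(c - lo_i) ≤ a_i`: `cumZ N' a = cum N x`.  (last) Let `H_i = ψ_i(hi_i - lo_i) ≥ 1`, `n = H_i - 1`.  If
`a_i ≥ H_i`, then `x_i = hi_i` and `cumZ N' a = cum N x = cum N x' = 0` (`x'_i` large).  `cumZ N' (single i n)` is `∑ N_v` over the
`v` with `v_j = lo_j` (`j ≠ i`), `v_i < hi_i`, which is `-N(hi_i, lo_j) ≠ 0`, since the sum over `v_i ≤ hi_i` is `0`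
(`cum N` at `x_j = lo_j`, `x_i` large). -/
def S_ID : Prop := S_NAT → S_HOM → ∀ (d : ℕ) (N : V d →₀ ℝ) (S : Finset (V d)) (μ lo hi lo' hi' : V d),
  Good N → Eqn N S μ → Corners N.support lo hi → Corners S lo' hi' →
  ∃ (N' T' : MvPolynomial (Fin d) ℝ) (m : Fin d → ℕ) (κ : Fin d → ℝ → ℕ), ZData N' T' m ∧
    (∀ x : V d, lo ≤ x → cum N x = cumZ N' (Finsupp.equivFunOnFinite.symm (fun i => κ i (x i)))) ∧
    ∀ i, ∃ n : ℕ, cumZ N' (Finsupp.single i n) = 1 ∧ ∀ a, cumZ N' a = 1 → a i ≤ n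

/-- JOB TILE.  The set of cells tiles `ℕ^d`.
Proof.  In the ring of power series (`MvPowerSeries (Fin d) ℝ`) let `I = N⁻¹` (`N` has constant term `1`).
`T_n = ∏_{j<n} T(X^{m^j})` satisfies `T_n N = N(X^{m^n})` and has coefficients in `ℕ`.  `N(X^{m^n}) = 1 +` terms of total degree
`≥ 2^n`, so the coefficients of `I` in total degree `< 2^n` are those of `T_n = N(X^{m^n}) I`; so all coefficients of
`I` are in `ℕ`.  Let `J = ∑_x X^x`; the coefficient of `N J` at `a` is `cumZ N a`, so with `P = ∑_a cumZ(a) X^a`: `P = N J`,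
`P I = J`.  So `∑_{a+b=x} P_a I_b = 1` for all `x`, with terms in `ℕ`, so exactly one term is `1` and the others are `0`; here
`P_a ∈ {0, 1}`, `P_0 = 1`, so `I_x ≤ 1`.  `B = {b : I_b = 1}`. -/
def S_TILE : Prop := ∀ (d : ℕ) (N T : MvPolynomial (Fin d) ℝ) (m : Fin d → ℕ), ZData N T m →
  ∃ B : Set (Fin d →₀ ℕ), Tiles {a | cumZ N a = 1} B

/-- JOB NIV1.  The one-dimensional lemma.
Proof.  `0 ∈ A`, `0 ∈ B` (representation of `0`).  Strong induction on `n₀`, the statement being for all `A`, `B`, `C`, `D`.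
If `n₀ = 0`: `A = {0}`, `B = ℕ`, `C ⊂ {0}`; if `C = {0}` then `C + B = ℕ` and `D = ∅`; if `C = ∅` then `D = ℕ`.
Let `n₀ > 0`.  Exactly one of `A`, `B` contains `1`.
BLOCK LEMMA (used twice, symmetric in `(A, C) ↔ (B, D)`): let `A`, `B` (arbitrary) with `Tiles A B`, `Tiles2 A B C D`, let `r ≥ 2`
be the least positive element of `B`; so `{0, …, r-1} ⊂ A`.  Then `A`, `C` are unions of blocks `{rk, …, rk + r-1}`, and `B`,
`D ⊂ rℕ`.  Proof for `A`, `B`: induction on `k`, for the elements in the block `[rk, rk + r)`, `k ≥ 1`.  The sums `a + b`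
with `a, b < rk` cover the block completely or not at all (by induction).  If completely, then `A`, `B` have no
element in it (uniqueness, `0 ∈ A ∩ B`).  If not, then `rk ∈ A ∪ B`.  If `rk ∈ B`, then `rk + {0, …, r-1}` covers the
block, and there is no other element of `A ∪ B` in it.  If `rk ∈ A`: if `rk + i ∈ B` with `0 < i < r`, then
`rk + r = (rk) + r = (r - i) + (rk + i)` are two representations; so there is no element of `B` in the block, and the
points `rk + j` (not sums of smaller elements; `rk + j = a + b` with `b = 0` or `b = rk + i ∈ B`) are in `A`.  For `C`, `D` in the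
same way (`k ≥ 0`): the sums `c + b` (`c ∈ C`, `c < rk`) and `a + d` (`d ∈ D`, `d < rk`) cover the block completely or not at
all; if completely, `C` and `D` have no element in it (`0 ∈ B`, `0 ∈ A`); otherwise `rk ∈ C ∪ D`; `rk ∈ D`: the block is
`{0, …, r-1} + rk`, no other element; `rk ∈ C`: `rk + i ∈ D`, `0 < i < r`, would give two representations of
`rk + r`: `rk + r` (`C + B`) and `(r - i) + (rk + i)` (`A + D`); so all points of the block are in `C`.
So `A = {0..r-1} + rA'`, `C = {0..r-1} + rC'`, `B = rB'`, `D = rD'`, and `Tiles A' B'`, `Tiles2 A' B' C' D'`.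
INDUCTION: if `1 ∈ A`: `B ≠ {0}` (as `A` is finite), `r` = least positive element of `B`; `A'` has the largest element
`n₀' = (n₀ - (r-1))/r < n₀`, and `C' ≤ n₀'`.  If `1 ∈ B`: `r` = least positive element of `A`, exchange the roles of
`(A, C)` and `(B, D)` in the block lemma: `A = rA'`, `C = rC'`, `n₀' = n₀/r < n₀`.  The conclusion for `A'`, `B'`, `C'`, `D'` gives the
conclusion for `A`, `B`, `C`, `D`. -/
def S_NIV1 : Prop := ∀ (A B C D : Set ℕ) (n₀ : ℕ), n₀ ∈ A → (∀ a ∈ A, a ≤ n₀) → (∀ c ∈ C, c ≤ n₀) →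
  Tiles A B → Tiles2 A B C D → (C = A ∧ D = ∅) ∨ (C = ∅ ∧ D = B)

/-- JOB NIV.  Tiles of `ℕ^d` are products.
Proof.  `0 ∈ A ∩ B`.  Fix `i`.  For `q` with `q i = 0` let `A_q = {n : q + n e_i ∈ A}`, `B_q` similarly; `Tiles A_0 B_0`, and `A_0` has a
largest element `n₀`, all `A_q ≤ n₀`.  CLAIM: for all `q` with `q i = 0`: `A_q ∈ {∅, A_0}` and `B_q ∈ {∅, B_0}`.  Strong
induction on `q` (`<` on `Fin d →₀ ℕ`, or `∑ q`).  `q = 0` is clear.  If there are `q', q'' ≠ 0` with `q' + q'' = q`, `A_{q'} = A_0`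
and `B_{q''} = B_0`, then `A_{q'} + B_{q''} = ℕ` covers the line at `q`, so by uniqueness `A_q = B_q = ∅`.  Otherwise (by the
induction hypothesis no other terms occur) the line at `q` is covered exactly once by `A_q + B_0` and `A_0 + B_q`:
`Tiles2 A_0 B_0 A_q B_q`, and `S_NIV1` gives `(A_q, B_q) = (A_0, ∅)` or `(∅, B_0)`.  So `a ∈ A` iff `a_i e_i ∈ A` and
`a - a_i e_i ∈ A` (if `a ∈ A`, then `A_q ≠ ∅` for `q = a - a_i e_i`, so `A_q = A_0 ∋ a_i, 0`; conversely `A_q ∋ 0`, so `A_q = A_0 ∋ a_i`).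
Apply this for all `i` one after the other. -/
def S_NIV : Prop := S_NIV1 → ∀ (d : ℕ) (A B : Set (Fin d →₀ ℕ)), Tiles A B →
  (∀ i, ∃ n : ℕ, Finsupp.single i n ∈ A ∧ ∀ a ∈ A, a i ≤ n) →
  ∀ a : Fin d →₀ ℕ, a ∈ A ↔ ∀ i, Finsupp.single i (a i) ∈ A

/-- JOB PR.  The product structure.
Proof.  `S_ONE`, `S_COR` (for the support of `N` and for `S`), `S_ID`, `S_TILE`, `S_NIV`.  If not `lo ≤ x`, then `cum N x = 0`.  So
`A_i = {t : lo_i ≤ t and cumZ N' (single i (κ_i t)) = 1}`. -/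
def S_PR : Prop := S_SGN → S_ONE → S_COR → S_NAT → S_HOM → S_ID → S_TILE → S_NIV1 → S_NIV →
  ∀ (d : ℕ) (N : V d →₀ ℝ) (S : Finset (V d)) (μ : V d), Good N → Eqn N S μ →
  ∃ A : Fin d → Set ℝ, ∀ x : V d, cum N x = 1 ↔ ∀ i, x i ∈ A i

/-- JOB BX.  `G` is a box.
Proof.  Let `B_i` be the projection of `int G` to the `i`-th coordinate: open, connected, bounded, not empty, so
`B_i = (a_i, b_i)`.  `int G ⊂ ∏ (a_i, b_i)`, so `G ⊂ [a, b]`.  Conversely every `t ∈ B_i` is `x_i` for some `x ∈ int G`, `cum N x = 1`,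
so `t ∈ A_i`.  So `cum N x = 1` for all `x ∈ ∏ (a_i, b_i)`, so almost all points of this open set are in `G`, and since
`G` is closed, all of them; and `[a, b]` is the closure of `∏ (a_i, b_i)`. -/
def S_BX : Prop := ∀ (d : ℕ) (G : Set (V d)) (N : V d →₀ ℝ), IsCompact G → G = closure (interior G) →
  IsConnected (interior G) → (∀ x ∈ interior G, cum N x = 1) → (∀ᵐ x, (cum N x = 1 ↔ x ∈ G)) →
  (∃ A : Fin d → Set ℝ, ∀ x : V d, cum N x = 1 ↔ ∀ i, x i ∈ A i) →
  ∃ a b : V d, (∀ i, a i < b i) ∧ G = Set.Icc a b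

/-- The theorem. -/
def S_THM : Prop := ∀ (d : ℕ) (G : Set (V d)), IsAttractor G → IsPolyhedron G → IsParallelepiped G

/-- JOB FIN.  Assembly.
Proof.  `Attr G M S`; `vol G ≠ 0` (nonempty open interior).  `S_M1` (`IsUnion G`): `u`, `N`.  `S_DG`, `S_KP`: `k`, `μ`.  `S_PW`: `Attr G (M^k) S₁`.
`S_CO` for `M^k`: `U`, `G'`, `N'`, `S'`.  `S_TR`: `G'` is compact, the closure of its interior, with connected interior, of
positive volume.  `S_LAP`, `S_Z1` for `G'`, `N'`: `N₁ = (-1)^d N'` is `Good`, and `Eqn N₁ S' μ`.  `S_PR`, `S_BX`: `G'` is a box.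
`S_TR`. -/
def S_FIN : Prop := S_EX → S_PW → S_FE → S_CL → S_FUB → S_RAT → S_POLY → S_LI → S_GAP → S_TAY → S_FAC →
  S_IND → S_M1 → S_DG → S_KP → S_CO → S_TR → S_LAP → S_Z1 → S_SGN → S_ONE → S_COR → S_NAT → S_HOM → S_ID →
  S_TILE → S_NIV1 → S_NIV → S_PR → S_BX → S_THM

end Pool.Agent.Q15.PA
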